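import Pool.Agent.R870.AP.Div3
import Pool.Agent.R870.AP.Rad1

/-!
# Random systems of Laurent polynomials and the division group of one algebraic number

Let `Γ` be a group of nonzero algebraic numbers generated by one element `g`, and `Γ_div` its
division group. The subvarieties of the torus defined by `k ≥ 1` Laurent polynomials with given
supports and integral coefficients of size at most `H` have, for all but a proportion
`C exp (κ B) log (H + 2) ^ N (2 H + 1) ^ (-k)` of the coefficient vectors, no algebraic point at a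
height distance at most `B` from the points of `Γ_div ^ n`.
-/

set_option autoImplicit false

namespace Pool.Agent.Results.MP_b7926e_nt.DivisionGroupRankOne

open Pool.Agent.R870.RZ (Coeff)
open Pool.Agent.R870.AP NumberField Height

/-- The algebraic points of the variety `V_c`: the common zeros with nonzero coordinates of the
Laurent polynomials `∑_{α ∈ A_j} c_jα x ^ α`. -/
def variety {n k : ℕ} (A : Fin k → Finset (Fin n → ℤ)) (c : Coeff A → ℤ) :
    Set (Fin n → AlgebraicClosure ℚ) :=
  {x | (∀ l, x l ≠ 0) ∧ ∀ j, ∑ α : {α // α ∈ A j}, (c ⟨j, α⟩ : AlgebraicClosure ℚ) *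
    ∏ l, x l ^ (α : Fin n → ℤ) l = 0}

/-- The division group of the group generated by `g`: the algebraic numbers with a positive power
in the group generated by `g`. -/
def Div (g : AlgebraicClosure ℚ) : Set (AlgebraicClosure ℚ) :=
  {z | ∃ N : ℕ, 0 < N ∧ ∃ a : ℤ, z ^ N = g ^ a}

/-- The integral coefficient vectors `c` of size at most `H` for which `V_c` has an algebraic point
`x` with `∑ h (x_l / γ_l) ≤ B` for a point `γ` with all the coordinates in the division group of
`g`. -/
def Exceptional {n k : ℕ} (A : Fin k → Finset (Fin n → ℤ)) (g : AlgebraicClosure ℚ) (H : ℕ)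
    (B : ℝ) : Set (Coeff A → ℤ) :=
  {c | (∀ i, |c i| ≤ (H : ℤ)) ∧ ∃ x ∈ variety A c, ∃ γ : Fin n → AlgebraicClosure ℚ,
    (∀ l, γ l ∈ Div g) ∧ ∑ l, NumberField.absLogHeight₁ (x l / γ l) ≤ B}

/-- Kronecker's theorem -/
lemma kron (g : Pool.Agent.Helper259.AbsHt.Qbar) (hg : g ≠ 0) (h : ht g = 0) :
    ∃ q : ℕ, 0 < q ∧ g ^ q = 1 := by
  classical
  obtain ⟨L, _, _, φ, hφ⟩ := exists_lift {g} (Set.finite_singleton g)
  obtain ⟨b, rfl⟩ := hφ g rfl
  have hfin := Northcott.finite_le (h := fun x : L => logHeight₁ x) 0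
  have hpos : (0 : ℝ) < Module.finrank ℚ L := by exact_mod_cast Module.finrank_pos
  have hb0 : b ≠ 0 := by
    rintro rfl
    exact hg (map_zero φ)
  have hb : ∀ m : ℕ, logHeight₁ (b ^ m) ≤ 0 := by
    intro m
    have h2 := ht_eq L φ b
    rw [h, eq_comm, div_eq_zero_iff] at h2
    have h3 : logHeight₁ b = 0 := by
      rcases h2 with h2 | h2
      · exact h2
      · exact absurd h2 hpos.ne'
    rw [logHeight₁_pow, h3, mul_zero]
  by_contra hno
  push Not at hno
  have key : ∀ m m' : ℕ, m < m' → b ^ m ≠ b ^ m' := by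
    intro m m' hlt heq
    apply hno (m' - m) (by omega)
    have h2 : b ^ (m' - m) = 1 := by
      have h3 : b ^ m * b ^ (m' - m) = b ^ m * 1 := by
        rw [← pow_add, mul_one, heq]
        congr 1
        omega
      exact mul_left_cancel₀ (pow_ne_zero _ hb0) h3
    rw [← map_pow, h2, map_one]
  have hinj : Function.Injective fun m : ℕ => b ^ m := by
    intro m m' hmm
    have hmm : b ^ m = b ^ m' := hmm
    by_contra hne
    rcases lt_or_gt_of_ne hne with h2 | h2
    · exact key _ _ h2 hmm
    · exact key _ _ h2 hmm.symm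
  exact (Set.infinite_range_of_injective hinj) (hfin.subset (by
    rintro _ ⟨m, rfl⟩
    exact hb m))

/-- Let `g` be a nonzero algebraic number, let `A_1, …, A_k` be finite nonempty subsets of `ℤ^n`
and `N = ∑ |A_j|`. There are `C`, `κ` such that for all `H` and all `B ≥ 0` at most
`C exp (κ B) log (H + 2) ^ N (2 H + 1) ^ (N - k)` of the `(2 H + 1) ^ N` integral vectors `c` of size
at most `H` are such that the common zero set of the `k` Laurent polynomials with the supports `A_j`
and the coefficients `c` contains an algebraic point `x` with `∑ h (x_l / γ_l) ≤ B` for a point `γ`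
all whose coordinates lie in the division group of `g`. -/
theorem result {n k : ℕ} (g : AlgebraicClosure ℚ) (hg : g ≠ 0)
    (A : Fin k → Finset (Fin n → ℤ)) (hA : ∀ j, (A j).Nonempty) :
    ∃ C κ : ℝ, ∀ (H : ℕ) (B : ℝ), 0 ≤ B → (Exceptional A g H B).Finite ∧
      ((Exceptional A g H B).ncard : ℝ) * (2 * H + 1) ^ k ≤ C * Real.exp (κ * B) *
        Real.log (H + 2) ^ (∑ j, (A j).card) * (2 * H + 1) ^ ∑ j, (A j).card := by
  classical
  -- a number of positive height whose division group contains the one of `g`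
  obtain ⟨g', hg', hη, hsub⟩ : ∃ g' : AlgebraicClosure ℚ, g' ≠ 0 ∧ 0 < ht g' ∧
      ∀ z, z ∈ Div g → z ∈ Div g' := by
    rcases (ht_nonneg g).lt_or_eq with h | h
    · exact ⟨g, hg, h, fun _ hz => hz⟩
    · obtain ⟨q, hq, hgq⟩ := kron g hg h.symm
      refine ⟨((2 : ℚ) : AlgebraicClosure ℚ), by norm_num, ht_rat_pos 2 (by norm_num)
        (by norm_num) (by norm_num), ?_⟩
      rintro z ⟨N, hN, a, hz⟩
      refine ⟨N * q, Nat.mul_pos hN hq, 0, ?_⟩
      rw [pow_mul, hz, zpow_zero, ← zpow_natCast, ← zpow_mul, mul_comm a, zpow_mul, zpow_natCast,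
        hgq, one_zpow]
  obtain ⟨C, κ, hC⟩ := div_main g' hg' hη A hA
  refine ⟨C, κ, fun H B hB => ?_⟩
  obtain ⟨E, hE, hE'⟩ := hC H B hB
  have hsubE : Exceptional A g H B ⊆ (E : Set (Coeff A → ℤ)) := by
    rintro c ⟨hc, x, hx, γ, hγ, hxγ⟩
    by_contra hcE
    have hγ0 : ∀ l, γ l ≠ 0 := by
      intro l h0
      obtain ⟨N, hN, a, h1⟩ := hγ l
      rw [h0, zero_pow hN.ne'] at h1
      exact zpow_ne_zero a hg h1.symm
    have hxw : ∀ l, γ l * (x l / γ l) = x l := fun l => by
      rw [mul_div_assoc', mul_div_cancel_left₀ _ (hγ0 l)]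
    have h1 := hE' c hc hcE γ (fun l => x l / γ l) (fun l => hsub _ (hγ l))
      (fun l => div_ne_zero (hx.1 l) (hγ0 l)) (fun j => by
        rw [← hx.2 j]
        refine Finset.sum_congr rfl fun α _ => ?_
        congr 1
        exact Finset.prod_congr rfl fun l _ => by rw [hxw l])
    simp only [abs1_eq] at hxγ
    exact absurd hxγ (not_le.2 h1)
  have hfin : (Exceptional A g H B).Finite := E.finite_toSet.subset hsubE
  refine ⟨hfin, le_trans ?_ hE⟩
  have h2 : (Exceptional A g H B).ncard ≤ E.card := by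
    rw [← Set.ncard_coe_finset]
    exact Set.ncard_le_ncard hsubE E.finite_toSet
  gcongr

end Pool.Agent.Results.MP_b7926e_nt.DivisionGroupRankOne
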