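import Pool.Agent.N712.ZT.Sets
import Pool.Agent.N24.RW.Clo
import Pool.Agent.N24.RW.Crit
import Pool.Agent.N24.RW.One
import Pool.Agent.N24.KM.Ae
import Pool.Agent.N24.KM.Int
import Pool.Agent.N24.KM.Kok
import Pool.Agent.N24.KM.Met
import Pool.Agent.N24.KM.Sep
import Pool.Agent.N24.KM.Tor
import Pool.Agent.N24.KM.Wey

/-!
# MP_b7926e_nt: Zilber's conjecture for the translates of all subvarieties of tori along metric sequences

Let `L ≥ 0` be a number of coordinates. For every coordinate `i < L` let `f_{i,0}, f_{i,1}, …` be a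
sequence of real functions of class `C²` to which Koksma's theorem applies on an interval `[a_i, b_i]`:
the derivatives of different functions of the sequence differ by at least `δ > 0` and the second derivative
of `f_{i,m} - f_{i,n}` has a constant sign. For `α` in `ℝ^L` put `c_m = (⌊f_{i,m}(α_i)⌋)_{i < L}`.

**Theorem.** For almost every `α` in the box the following holds for ALL dimensions `n`, ALL
irreducible subvarieties `V` of the torus `(ℂ^×)^n` over the complex numbers and ALL finitely generated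
subgroups `Γ` of `ℂ^×`. There is a number `κ`, which depends on `V` only, such that for all `m`
outside a set of density zero, for all `s` with `κ s < L` and all integral `L × n` matrices `e` such that
no hyperplane through the origin contains more than `s` of the rows, the translate `g V` of `V` by the
vector `g_j = ∏_{l < L} c_{m,l} ^ e_{l j}` has no atypical subvariety at all, more generally no atypical
intersection with a coset `η H` of an algebraic subgroup `H` by a point `η` whose coordinates are in the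
division hull of `Γ`.

The same holds for `c_m = (⌊a_{i,m} α_i⌋)_i` and almost all `α ∈ ℝ^L`, for ANY sequences `a_{i,m}`,
`m = 0, 1, …`, of real numbers with mutual distances at least `δ > 0` (so for any sequences of different
integers: factorials, powers, any enumeration of any infinite set of integers), and for
`c_m = (⌊ξ_i α_i ^ k_m⌋)_i`, for any sequence of different natural numbers `k_m`, all `ξ_i ≠ 0` and almost
all `α` with all `α_i > 1`.

Proof. Outside a set of integral vectors which is small modulo some `q` prime to every given number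
(`ProNull`) every coordinate `c_l` has a prime `p_l > D` which divides it exactly once and divides no
other coordinate (`Pool.Agent.N24.RW.t_ONE`), and a metric sequence visits such a set for almost all `α`
only at a set of times of density zero (`Pool.Agent.N24.KM.t_MET`, by Koksma's theorem in several
variables). At a place of `ℂ` above `p_l` the coefficients of finitely many equations of `V` and the
generators of `Γ` are units and the vector of the valuations of `g` is the row `e_l`; the rest is the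
argument of the starting file `NoAtypical` in the form of `Pool.Agent.N712.ZT.translates`.
-/

set_option autoImplicit false

namespace Pool.Agent.Results.MP_b7926e_nt.MetricSequences

open MvPolynomial MeasureTheory Filter Topology
open Pool.Agent.Results.MP_b7926e_nt.NoAtypical (coset idealOf dim)
open Pool.Agent.N24.RW (ProNull)
open Pool.Agent.N24.KM (Koksma Rarely Metric)

/-- The translate of `V` by the vector `g`. -/
def translate {n : ℕ} (g : Fin n → ℂ) (V : Set (Fin n → ℂ)) : Set (Fin n → ℂ) :=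
  {y | ∃ x ∈ V, ∀ i, y i = g i * x i}

/-- Every irreducible subset `A` of the intersection of `W` with a coset `η H` of an algebraic subgroup
`H`, such that a power of every coordinate of `η` is in `Γ`, satisfies `dim A ≤ dim W + dim H - n`, where
`dim H = n - rank M`. For `Γ = 1` this means that `W` has no atypical subvariety. -/
def NoAtypical {n : ℕ} (Γ : Subgroup ℂˣ) (W : Set (Fin n → ℂ)) : Prop :=
  ∀ (M : Submodule ℤ (Fin n → ℤ)) (η : Fin n → ℂ),
    (∀ i, ∃ m : ℕ, 0 < m ∧ ∃ γ ∈ Γ, η i ^ m = (γ : ℂ)) →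
    ∀ A : Set (Fin n → ℂ), A ⊆ W → A ⊆ coset M η → (idealOf A).IsPrime →
      dim A + (Module.finrank ℤ M : Cardinal) ≤ dim W

/-- At most `s` of the rows of `e` are orthogonal to a given nonzero vector. -/
def GeneralPosition {L n : ℕ} (s : ℕ) (e : Fin L → Fin n → ℤ) : Prop :=
  ∀ χ : Fin n → ℤ, χ ≠ 0 → {l | ∑ j, χ j * e l j = 0}.ncard ≤ s

/-- For all exponent matrices `e` in general position the translate of `V` by the monomials
`∏_l c_l ^ e_{l j}` has no atypical intersections. -/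
def Good {n L : ℕ} (V : Set (Fin n → ℂ)) (Γ : Subgroup ℂˣ) (κ : ℕ) (c : Fin L → ℤ) : Prop :=
  ∀ (s : ℕ) (e : Fin L → Fin n → ℤ), κ * s < L → GeneralPosition s e →
    NoAtypical Γ (translate (fun j => ∏ l, (c l : ℂ) ^ e l j) V)

/-- one prime for every coordinate -/
theorem good_of_primes {n L : ℕ} {V : Set (Fin n → ℂ)} {Γ : Subgroup ℂˣ} {κ D : ℕ}
    (hD : ∀ L t : ℕ, κ * t < L → ∀ q : Fin L → ℕ,
      (∀ i, (q i).Prime ∧ D < q i) → ∀ e : Fin L → Fin n → ℤ,
      (∀ χ : Fin n → ℤ, χ ≠ 0 → {l | ∑ j, χ j * e l j = 0}.ncard ≤ t) → ∀ g : Fin n → ℂ,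
      (∀ j, g j ≠ 0) →
      (∀ i j, ∀ O : ValuationSubring ℂ, (q i : ℂ) ∈ O.nonunits →
        O.valuation (g j) = O.valuation (q i : ℂ) ^ (e i j)) →
      ∀ (M : Submodule ℤ (Fin n → ℤ)) (η : Fin n → ℂ),
        (∀ i, ∃ m : ℕ, 0 < m ∧ ∃ γ ∈ Γ, η i ^ m = (γ : ℂ)) →
        ∀ A : Set (Fin n → ℂ), A ⊆ Pool.Agent.N712.ZT.tl g V → A ⊆ coset M η →
          (idealOf A).IsPrime →
          dim A + (Module.finrank ℤ M : Cardinal) ≤ dim (Pool.Agent.N712.ZT.tl g V))
    (c : Fin L → ℤ) (hc : ∀ l, ∃ p : ℕ, p.Prime ∧ D < p ∧ (p : ℤ) ∣ c l ∧ ¬ ((p : ℤ) ^ 2 ∣ c l) ∧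
      ∀ j, j ≠ l → ¬ (p : ℤ) ∣ c j) : Good V Γ κ c := by
  choose p hp1 hp2 hp3 hp4 hp5 using hc
  intro s e hs he M η hη A hAV hAT hA
  have hne : ∀ l, (c l : ℂ) ≠ 0 := by
    intro l h0
    apply hp4 l
    have h4 : c l = 0 := by exact_mod_cast h0
    rw [h4]
    exact dvd_zero _
  have hunit : ∀ (l : Fin L) (O : ValuationSubring ℂ), (p l : ℂ) ∈ O.nonunits →
      ∀ k : ℤ, ¬ (p l : ℤ) ∣ k → O.valuation (k : ℂ) = 1 := by
    intro l O hO k hk
    rw [ValuationSubring.mem_nonunits_iff] at hO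
    have h4 : IsCoprime k ((p l : ℕ) : ℤ) :=
      (((Nat.prime_iff_prime_int.1 (hp1 l)).coprime_iff_not_dvd).2 hk).symm
    exact Pool.Agent.H173R3.ZT.val_int_eq_one O hO h4
  refine hD L s hs p (fun l => ⟨hp1 l, hp2 l⟩) e he _
    (fun j => Finset.prod_ne_zero_iff.2 fun l _ => zpow_ne_zero _ (hne l)) (fun i j O hO => ?_)
    M η hη A hAV hAT hA
  rw [map_prod, Finset.prod_eq_single i]
  · rw [map_zpow₀]
    congr 1
    obtain ⟨k, hk⟩ := hp3 i
    have hk2 : ¬ (p i : ℤ) ∣ k := by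
      rintro ⟨r, hr⟩
      apply hp4 i
      rw [hk, hr]
      exact ⟨r, by ring⟩
    rw [hk]
    push_cast
    rw [map_mul, hunit i O hO k hk2, mul_one]
  · intro l _ hl
    rw [map_zpow₀, hunit i O hO _ (hp5 i l hl), one_zpow]
  · intro hi
    exact absurd (Finset.mem_univ i) hi

/-- `c` has the property `P` for all times outside a set of density zero. -/
def Usually (P : ℕ → Prop) : Prop :=
  Tendsto (fun N : ℕ => (({m : ℕ | m < N ∧ ¬ P m}.ncard : ℕ) : ℝ) / (N : ℝ)) atTop (𝓝 0)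

/-- every coordinate has its own large prime -/
def Own {L : ℕ} (D : ℕ) (c : Fin L → ℤ) : Prop :=
  ∀ l, ∃ p : ℕ, p.Prime ∧ D < p ∧ (p : ℤ) ∣ c l ∧ ¬ ((p : ℤ) ^ 2 ∣ c l) ∧
    ∀ j, j ≠ l → ¬ (p : ℤ) ∣ c j

theorem metric_own (L D : ℕ) : Metric {c : Fin L → ℤ | ¬ Own D c} :=
  Pool.Agent.N24.KM.t_MET (Pool.Agent.N24.KM.t_KOK (Pool.Agent.N24.KM.t_WEY
    Pool.Agent.N24.KM.t_INT Pool.Agent.N24.KM.t_SEP Pool.Agent.N24.KM.t_AE)
    Pool.Agent.N24.KM.t_TOR) (Fin L) _
    (Pool.Agent.N24.RW.t_ONE Pool.Agent.N24.RW.t_CRIT Pool.Agent.N24.RW.t_CLO (Fin L) D)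

theorem usually_of_own {L : ℕ} {κ : (n : ℕ) → Set (Fin n → ℂ) → ℕ}
    (hκ : ∀ (n : ℕ) (V : Set (Fin n → ℂ)), (idealOf V).IsPrime →
      ∀ Γ : Subgroup ℂˣ, Γ.FG → ∃ D : ℕ, ∀ (L : ℕ) (c : Fin L → ℤ), Own D c → Good V Γ (κ n V) c)
    (c : ℕ → Fin L → ℤ) (h : ∀ D : ℕ, Rarely c {c : Fin L → ℤ | ¬ Own D c})
    (n : ℕ) (V : Set (Fin n → ℂ)) (hV : (idealOf V).IsPrime) (Γ : Subgroup ℂˣ) (hΓ : Γ.FG) :
    Usually fun m => Good V Γ (κ n V) (c m) := by
  obtain ⟨D, hD⟩ := hκ n V hV Γ hΓ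
  refine squeeze_zero (fun N => by positivity) (fun N => ?_) (h D)
  refine div_le_div_of_nonneg_right ?_ (Nat.cast_nonneg N)
  have hsub : {m : ℕ | m < N ∧ ¬ Good V Γ (κ n V) (c m)} ⊆
      {m : ℕ | m < N ∧ c m ∈ {c : Fin L → ℤ | ¬ Own D c}} :=
    fun m hm => ⟨hm.1, fun h => hm.2 (hD L _ h)⟩
  have hle := Set.ncard_le_ncard hsub ((Set.finite_lt_nat N).subset fun m hm => hm.1)
  exact_mod_cast hle

/-- **Zilber's conjecture for the translates along metric sequences.** -/
theorem result : ∃ κ : (n : ℕ) → Set (Fin n → ℂ) → ℕ, ∀ L : ℕ,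
    -- integral parts of Koksma sequences
    (∀ (a b : Fin L → ℝ) (f : Fin L → ℕ → ℝ → ℝ), (∀ i, a i < b i) →
      (∀ i, Koksma (a i) (b i) (f i)) →
      ∀ᵐ α : Fin L → ℝ, (∀ i, α i ∈ Set.Icc (a i) (b i)) →
        ∀ (n : ℕ) (V : Set (Fin n → ℂ)), (idealOf V).IsPrime → ∀ Γ : Subgroup ℂˣ, Γ.FG →
          Usually fun m => Good V Γ (κ n V) fun i => ⌊f i m (α i)⌋) ∧
    -- integral parts of linear sequences
    (∀ (a : Fin L → ℕ → ℝ) (δ : ℝ), 0 < δ → (∀ i m n, m ≠ n → δ ≤ |a i m - a i n|) →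
      ∀ᵐ α : Fin L → ℝ, ∀ (n : ℕ) (V : Set (Fin n → ℂ)), (idealOf V).IsPrime →
        ∀ Γ : Subgroup ℂˣ, Γ.FG → Usually fun m => Good V Γ (κ n V) fun i => ⌊a i m * α i⌋) ∧
    -- integral parts of powers
    (∀ (k : ℕ → ℕ) (ξ : Fin L → ℝ), Function.Injective k → (∀ i, ξ i ≠ 0) →
      ∀ᵐ α : Fin L → ℝ, (∀ i, 1 < α i) →
        ∀ (n : ℕ) (V : Set (Fin n → ℂ)), (idealOf V).IsPrime → ∀ Γ : Subgroup ℂˣ, Γ.FG →
          Usually fun m => Good V Γ (κ n V) fun i => ⌊ξ i * α i ^ k m⌋) := by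
  have hex : ∀ (n : ℕ) (V : Set (Fin n → ℂ)), ∃ κ : ℕ, (idealOf V).IsPrime →
      ∀ Γ : Subgroup ℂˣ, Γ.FG → ∃ D : ℕ, ∀ (L : ℕ) (c : Fin L → ℤ), Own D c → Good V Γ κ c := by
    intro n V
    by_cases hV : (idealOf V).IsPrime
    · obtain ⟨κ, hκ⟩ := Pool.Agent.N712.ZT.translates V hV
      refine ⟨κ, fun _ Γ hΓ => ?_⟩
      obtain ⟨D, hD⟩ := hκ Γ hΓ
      exact ⟨D, fun L c hc => good_of_primes hD c hc⟩
    · exact ⟨0, fun h => absurd h hV⟩
  choose κ hκ using hex
  refine ⟨κ, fun L => ⟨fun a b f hab hf => ?_, fun a δ hδ ha => ?_, fun k ξ hk hξ => ?_⟩⟩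
  · have h1 := ae_all_iff.2 fun D : ℕ => (metric_own L D).1 a b f hab hf
    filter_upwards [h1] with α hα hbox
    exact usually_of_own hκ _ fun D => hα D hbox
  · have h1 := ae_all_iff.2 fun D : ℕ => (metric_own L D).2.1 a δ hδ ha
    filter_upwards [h1] with α hα
    exact usually_of_own hκ _ fun D => hα D
  · have h1 := ae_all_iff.2 fun D : ℕ => (metric_own L D).2.2 k ξ hk hξ
    filter_upwards [h1] with α hα hpos
    exact usually_of_own hκ _ fun D => hα D hpos

end Pool.Agent.Results.MP_b7926e_nt.MetricSequences
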