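import Pool.Agent.N712.ZT.Sets
import Pool.Agent.N666.TM.Diag

/-!
# MP_b7926e_nt: one set of density zero for Zilber's conjecture for translates of all subvarieties of tori

Let `P_0, P_1, P_2, …` be an infinite sequence of generalised polynomials `P(t) = ∑ a_x t ^ x` (finitely
many real exponents, real coefficients, depending on `l`) with distinct leading exponents which are
positive and not integers and have positive coefficients; for example `P_l(t) = t ^ (2 l + √2)`.

**Theorem.** There is ONE set `E` of positive integers of natural density zero, also of relative density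
zero in the set of the primes, with the following property. Let `n` be any dimension, `V` any irreducible
subvariety of the torus `(ℂ^×)^n` (over the complex numbers, of any dimension and degree), and let `Γ` be
any finitely generated subgroup of `ℂ^×`. There is a number `κ`, which depends on `V` only, such
that for all matrices `e` of integers with `L` rows of length `n`, such that no hyperplane through the
origin contains more than `s` of the rows, `κ s < L` (general position; for instance `s = n - 1` and
`e_{l j} = l ^ j`), the translates `g(t) V` of `V` by the vectors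

`g_j(t) = ∏_{l < L} |⌊P_l(t)⌋| ^ e_{l j}`

have no atypical subvarieties at all for all but finitely many integers `t` outside `E`, more generally
no atypical intersection with a coset `η H` of an algebraic subgroup `H` by a point `η` whose coordinates
are in the division hull of `Γ` (`η_j ^ m ∈ Γ` for some `m ≥ 1`; `Γ = 1` gives the torsion cosets of the
problem): every irreducible subset `A` of `g(t) V ∩ η H` satisfies `dim A ≤ dim V + dim H - n`.

The set `E` depends on the `P_l` only; the finite number of further exceptions depends on the data.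

Proof. By exponential sums (`Pool.Agent.Y961.JR` of the starting library) the integer parts
`⌊P_0(t)⌋, …, ⌊P_k(t)⌋` are jointly equidistributed modulo all `q ≤ N^δ` over the integers and over the
primes `t ≤ N`. Turan's sieve shows that for almost all `t` every `⌊P_l(t)⌋`, `l ≤ k`, has an exact prime
divisor above `k` which does not divide the others (`Pool.Agent.N666.TM`). At a place of `ℂ` above such a
prime `p_l` all coefficients of finitely many equations of `V` and all generators of `Γ` are units, and
the vector of the valuations of `g(t)` is the row `e_l`. So the coordinates of a point of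
`V ∩ g(t)^{-1} η H` satisfy relations among the valuations of the monomials, of one of finitely many
types; one type belongs to more than `s` of the primes, and the relations of this type and the lattice of
the characters trivial on `H` have a nonzero common element if `H` is too small, which is
orthogonal to more than `s` of the rows. Positive dimensional intersections are reduced to points by
specialisation. This is the argument of the starting file `NoAtypical`, there for
vectors `g` in one residue class (a positive proportion of the integral vectors).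
-/

set_option autoImplicit false

namespace Pool.Agent.Results.MP_b7926e_nt.OneNullSet

open MvPolynomial
open Pool.Agent.Results.MP_b7926e_nt.NoAtypical (coset idealOf dim)

/-- `c` is the largest exponent of the generalised polynomial `∑ a_x t ^ x`; it is positive and not an
integer and has a positive coefficient. -/
def Admissible (F : Finset ℝ) (a : ℝ → ℝ) (c : ℝ) : Prop :=
  c ∈ F ∧ (∀ x ∈ F, x ≤ c) ∧ 0 < c ∧ (∀ m : ℕ, c ≠ m) ∧ 0 < a c

/-- The absolute value of the integer part of the value at `t` of the generalised polynomial `P_l`. -/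
noncomputable def value (F : ℕ → Finset ℝ) (a : ℕ → ℝ → ℝ) (l t : ℕ) : ℕ :=
  (⌊∑ x ∈ F l, a l x * (t : ℝ) ^ x⌋).natAbs

/-- `E` has density zero relative to the sets `S N`. -/
def NullIn (S : ℕ → Finset ℕ) (E : Set ℕ) : Prop :=
  ∀ ε : ℝ, 0 < ε → ∃ N₀ : ℕ, ∀ N : ℕ, N₀ ≤ N →
    ({t : ℕ | t ∈ S N ∧ t ∈ E}.ncard : ℝ) ≤ ε * (S N).card

/-- The translate of `V` by the vector `g`. -/
def translate {n : ℕ} (g : Fin n → ℂ) (V : Set (Fin n → ℂ)) : Set (Fin n → ℂ) :=
  {y | ∃ x ∈ V, ∀ i, y i = g i * x i}

/-- Every irreducible subset `A` of the intersection of `W` with a coset `η H` of an algebraic subgroup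
`H`, such that a power of every coordinate of `η` is in `Γ`, satisfies `dim A ≤ dim W + dim H - n`, where
`dim H = n - rank M`. For `Γ = 1` this means that `W` has no atypical subvariety. -/
def NoAtypical {n : ℕ} (Γ : Subgroup ℂˣ) (W : Set (Fin n → ℂ)) : Prop :=
  ∀ (M : Submodule ℤ (Fin n → ℤ)) (η : Fin n → ℂ),
    (∀ i, ∃ m : ℕ, 0 < m ∧ ∃ γ ∈ Γ, η i ^ m = (γ : ℂ)) →
    ∀ A : Set (Fin n → ℂ), A ⊆ W → A ⊆ coset M η → (idealOf A).IsPrime →
      dim A + (Module.finrank ℤ M : Cardinal) ≤ dim W

/-- At most `s` of the rows of `e` are orthogonal to a given nonzero vector. -/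
def GeneralPosition {L n : ℕ} (s : ℕ) (e : Fin L → Fin n → ℤ) : Prop :=
  ∀ χ : Fin n → ℤ, χ ≠ 0 → {l | ∑ j, χ j * e l j = 0}.ncard ≤ s

theorem result (F : ℕ → Finset ℝ) (a : ℕ → ℝ → ℝ) (c : ℕ → ℝ) (h : ∀ l, Admissible (F l) (a l) (c l))
    (hc : Function.Injective c) :
    ∃ E : Set ℕ, NullIn (fun N => Finset.Ioc N (2 * N)) E ∧
      NullIn (fun N => (Finset.Ioc N (2 * N)).filter Nat.Prime) E ∧
      ∀ (n : ℕ) (V : Set (Fin n → ℂ)), (idealOf V).IsPrime → ∃ κ : ℕ,
        ∀ Γ : Subgroup ℂˣ, Γ.FG → ∀ L s : ℕ, κ * s < L →
          ∀ e : Fin L → Fin n → ℤ, GeneralPosition s e →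
            {t : ℕ | t ∉ E ∧ ¬ NoAtypical Γ
              (translate (fun j => ∏ l : Fin L, (value F a l t : ℂ) ^ e l j) V)}.Finite := by
  obtain ⟨E, h1, h2, h3⟩ := Pool.Agent.N666.TM.one_null_set h hc
  refine ⟨E, h1, h2, fun n V hV => ?_⟩
  obtain ⟨κ, hκ⟩ := Pool.Agent.N712.ZT.translates V hV
  refine ⟨κ, fun Γ hΓ L s hL e he => ?_⟩
  obtain ⟨D, hD⟩ := hκ Γ hΓ
  refine (h3 (D + L)).subset ?_
  rintro t ⟨htE, ht⟩
  refine ⟨htE, fun hgood => ht ?_⟩
  choose p hp1 hp2 hp3 hp4 hp5 using hgood
  have hlt : ∀ l : Fin L, (l : ℕ) < D + L + 1 := fun l => by have := l.2; omega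
  -- the divisibilities for the absolute values
  have hd1 : ∀ l : Fin L, p l (hlt l) ∣ value F a l t := fun l => Int.natCast_dvd.mp (hp3 l (hlt l))
  have hd2 : ∀ l : Fin L, ¬ p l (hlt l) ^ 2 ∣ value F a l t := by
    intro l hd
    apply hp4 l (hlt l)
    have := Int.natCast_dvd.mpr hd
    push_cast at this
    exact this
  have hd3 : ∀ l l' : Fin L, l' ≠ l → ¬ p l (hlt l) ∣ value F a l' t := fun l l' hl' hd =>
    hp5 l (hlt l) l' (hlt l') (fun heq => hl' (Fin.ext heq)) (Int.natCast_dvd.mpr hd)
  have hne : ∀ l : Fin L, (value F a l t : ℂ) ≠ 0 := by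
    intro l h0
    apply hd2 l
    have h4 : value F a l t = 0 := by exact_mod_cast h0
    rw [h4]
    exact dvd_zero _
  have hunit : ∀ (l : Fin L) (O : ValuationSubring ℂ), (p l (hlt l) : ℂ) ∈ O.nonunits →
      ∀ k : ℕ, ¬ p l (hlt l) ∣ k → O.valuation (k : ℂ) = 1 := by
    intro l O hO k hk
    rw [ValuationSubring.mem_nonunits_iff] at hO
    have h4 : IsCoprime (k : ℤ) ((p l (hlt l) : ℕ) : ℤ) :=
      Nat.isCoprime_iff_coprime.2 (((hp1 l (hlt l)).coprime_iff_not_dvd.2 hk).symm)
    have h5 := Pool.Agent.H173R3.ZT.val_int_eq_one O hO h4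
    simpa using h5
  intro M η hη A hAV hAT hA
  refine hD L s hL (fun l => p l (hlt l)) (fun l => ⟨hp1 l (hlt l), ?_⟩) e he _
    (fun j => Finset.prod_ne_zero_iff.2 fun l _ => zpow_ne_zero _ (hne l)) (fun i j O hO => ?_)
    M η hη A hAV hAT hA
  · have := hp2 l (hlt l)
    change D < p l (hlt l)
    omega
  · rw [map_prod, Finset.prod_eq_single i]
    · rw [map_zpow₀]
      congr 1
      obtain ⟨k, hk⟩ := hd1 i
      have hk2 : ¬ p i (hlt i) ∣ k := by
        rintro ⟨r, hr⟩
        apply hd2 i
        rw [hk, hr]
        exact ⟨r, by ring⟩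
      rw [hk]
      push_cast
      rw [map_mul, hunit i O hO k hk2, mul_one]
    · intro l _ hl
      rw [map_zpow₀, hunit i O hO _ (hd3 i l hl), one_zpow]
    · intro hi
      exact absurd (Finset.mem_univ i) hi

end Pool.Agent.Results.MP_b7926e_nt.OneNullSet
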