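import Pool.Agent.N712.ZT.Sets
import Pool.Agent.N24.RW.Clo
import Pool.Agent.N24.RW.Crit
import Pool.Agent.N24.RW.Erg
import Pool.Agent.N24.RW.Main
import Pool.Agent.N24.RW.One
import Pool.Agent.N24.RW.Orb

/-!
# MP_b7926e_nt: Zilber's conjecture for the translates of all subvarieties of tori along random orbits

Let `W` be a finite family of matrices in `SL_L(ℤ)` that generates `SL_L(ℤ/q)` for all `q` prime to some
`q₀` (by strong approximation every finite family generating a Zariski dense subgroup is one, for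
instance generators of a thin group of infinite index), `v ≠ 0` an integral vector, and
`c_0 = v, c_1, c_2, …` its random orbit, `c_{m+1} = s_{w m} c_m` with independent uniformly chosen indices
`w m`.

**Theorem.** For almost every sequence `w` the following holds for ALL dimensions `n`, ALL
irreducible subvarieties `V` of the torus `(ℂ^×)^n` over the complex numbers and ALL finitely generated
subgroups `Γ` of `ℂ^×`. There is a number `κ`, which depends on `V` only, such that for all times `m`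
outside a set of density zero, for all `s` with `κ s < L` and all integral `L × n` matrices `e` such that
no hyperplane through the origin contains more than `s` of the rows, the translate `g V` of `V` by the
vector `g_j = ∏_{l < L} c_{m,l} ^ e_{l j}` has no atypical subvariety at all, more generally no atypical
intersection with a coset `η H` of an algebraic subgroup `H` by a point `η` whose coordinates are in the
division hull of `Γ`.

Moreover for given `V` and `Γ` the set of all integral vectors `c` for which this fails for some `e` has a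
closure of Haar measure zero in the product of the `ℤ_p^L`, `p` not dividing `M`, for every `M`.

Proof. Outside a set of the last kind (`ProNull`) every coordinate `c_l` has a prime `p_l > D` which divides
it exactly once and divides no other coordinate (`Pool.Agent.N24.RW.t_ONE`), and almost every random orbit
visits such a set only at a set of times of density zero (`Pool.Agent.N24.RW.t_MAIN`: the random walk is
equidistributed in the orbit modulo `q`, which contains at least half of the vectors). At a place of `ℂ`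
above `p_l` the coefficients of finitely many equations of `V` and the generators of `Γ` are
units and the vector of the valuations of `g` is the row `e_l`; the rest is the argument of the starting
file `NoAtypical` in the form of `Pool.Agent.N712.ZT.translates`.
-/

set_option autoImplicit false

namespace Pool.Agent.Results.MP_b7926e_nt.RandomOrbits

open MvPolynomial MeasureTheory Filter Topology
open Pool.Agent.Results.MP_b7926e_nt.NoAtypical (coset idealOf dim)
open Pool.Agent.N24.RW (Walk orb words ProNull)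

/-- The translate of `V` by the vector `g`. -/
def translate {n : ℕ} (g : Fin n → ℂ) (V : Set (Fin n → ℂ)) : Set (Fin n → ℂ) :=
  {y | ∃ x ∈ V, ∀ i, y i = g i * x i}

/-- Every irreducible subset `A` of the intersection of `W` with a coset `η H` of an algebraic subgroup
`H`, such that a power of every coordinate of `η` is in `Γ`, satisfies `dim A ≤ dim W + dim H - n`, where
`dim H = n - rank M`. For `Γ = 1` this means that `W` has no atypical subvariety. -/
def NoAtypical {n : ℕ} (Γ : Subgroup ℂˣ) (W : Set (Fin n → ℂ)) : Prop :=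
  ∀ (M : Submodule ℤ (Fin n → ℤ)) (η : Fin n → ℂ),
    (∀ i, ∃ m : ℕ, 0 < m ∧ ∃ γ ∈ Γ, η i ^ m = (γ : ℂ)) →
    ∀ A : Set (Fin n → ℂ), A ⊆ W → A ⊆ coset M η → (idealOf A).IsPrime →
      dim A + (Module.finrank ℤ M : Cardinal) ≤ dim W

/-- At most `s` of the rows of `e` are orthogonal to a given nonzero vector. -/
def GeneralPosition {L n : ℕ} (s : ℕ) (e : Fin L → Fin n → ℤ) : Prop :=
  ∀ χ : Fin n → ℤ, χ ≠ 0 → {l | ∑ j, χ j * e l j = 0}.ncard ≤ s

/-- For all exponent matrices `e` in general position the translate of `V` by the monomials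
`∏_l c_l ^ e_{l j}` has no atypical intersections. -/
def Good {n L : ℕ} (V : Set (Fin n → ℂ)) (Γ : Subgroup ℂˣ) (κ : ℕ) (c : Fin L → ℤ) : Prop :=
  ∀ (s : ℕ) (e : Fin L → Fin n → ℤ), κ * s < L → GeneralPosition s e →
    NoAtypical Γ (translate (fun j => ∏ l, (c l : ℂ) ^ e l j) V)

/-- one prime for every coordinate -/
theorem good_of_primes {n L : ℕ} {V : Set (Fin n → ℂ)} {Γ : Subgroup ℂˣ} {κ D : ℕ}
    (hD : ∀ L t : ℕ, κ * t < L → ∀ q : Fin L → ℕ,
      (∀ i, (q i).Prime ∧ D < q i) → ∀ e : Fin L → Fin n → ℤ,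
      (∀ χ : Fin n → ℤ, χ ≠ 0 → {l | ∑ j, χ j * e l j = 0}.ncard ≤ t) → ∀ g : Fin n → ℂ,
      (∀ j, g j ≠ 0) →
      (∀ i j, ∀ O : ValuationSubring ℂ, (q i : ℂ) ∈ O.nonunits →
        O.valuation (g j) = O.valuation (q i : ℂ) ^ (e i j)) →
      ∀ (M : Submodule ℤ (Fin n → ℤ)) (η : Fin n → ℂ),
        (∀ i, ∃ m : ℕ, 0 < m ∧ ∃ γ ∈ Γ, η i ^ m = (γ : ℂ)) →
        ∀ A : Set (Fin n → ℂ), A ⊆ Pool.Agent.N712.ZT.tl g V → A ⊆ coset M η →
          (idealOf A).IsPrime →
          dim A + (Module.finrank ℤ M : Cardinal) ≤ dim (Pool.Agent.N712.ZT.tl g V))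
    (c : Fin L → ℤ) (hc : ∀ l, ∃ p : ℕ, p.Prime ∧ D < p ∧ (p : ℤ) ∣ c l ∧ ¬ ((p : ℤ) ^ 2 ∣ c l) ∧
      ∀ j, j ≠ l → ¬ (p : ℤ) ∣ c j) : Good V Γ κ c := by
  choose p hp1 hp2 hp3 hp4 hp5 using hc
  intro s e hs he M η hη A hAV hAT hA
  have hne : ∀ l, (c l : ℂ) ≠ 0 := by
    intro l h0
    apply hp4 l
    have h4 : c l = 0 := by exact_mod_cast h0
    rw [h4]
    exact dvd_zero _
  have hunit : ∀ (l : Fin L) (O : ValuationSubring ℂ), (p l : ℂ) ∈ O.nonunits →
      ∀ k : ℤ, ¬ (p l : ℤ) ∣ k → O.valuation (k : ℂ) = 1 := by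
    intro l O hO k hk
    rw [ValuationSubring.mem_nonunits_iff] at hO
    have h4 : IsCoprime k ((p l : ℕ) : ℤ) :=
      (((Nat.prime_iff_prime_int.1 (hp1 l)).coprime_iff_not_dvd).2 hk).symm
    exact Pool.Agent.H173R3.ZT.val_int_eq_one O hO h4
  refine hD L s hs p (fun l => ⟨hp1 l, hp2 l⟩) e he _
    (fun j => Finset.prod_ne_zero_iff.2 fun l _ => zpow_ne_zero _ (hne l)) (fun i j O hO => ?_)
    M η hη A hAV hAT hA
  rw [map_prod, Finset.prod_eq_single i]
  · rw [map_zpow₀]
    congr 1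
    obtain ⟨k, hk⟩ := hp3 i
    have hk2 : ¬ (p i : ℤ) ∣ k := by
      rintro ⟨r, hr⟩
      apply hp4 i
      rw [hk, hr]
      exact ⟨r, by ring⟩
    rw [hk]
    push_cast
    rw [map_mul, hunit i O hO k hk2, mul_one]
  · intro l _ hl
    rw [map_zpow₀, hunit i O hO _ (hp5 i l hl), one_zpow]
  · intro hi
    exact absurd (Finset.mem_univ i) hi

open Classical in
/-- **Zilber's conjecture for the translates along random orbits.** -/
theorem result : ∃ κ : (n : ℕ) → Set (Fin n → ℂ) → ℕ,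
    (∀ (n L : ℕ) (V : Set (Fin n → ℂ)), (idealOf V).IsPrime → ∀ Γ : Subgroup ℂˣ, Γ.FG →
      ProNull {c : Fin L → ℤ | ¬ Good V Γ (κ n V) c}) ∧
    ∀ L : ℕ, 2 ≤ L → ∀ (W : Walk (Fin L)) (v : Fin L → ℤ), v ≠ 0 → ∀ᵐ w ∂(words W.m),
      ∀ (n : ℕ) (V : Set (Fin n → ℂ)), (idealOf V).IsPrime → ∀ Γ : Subgroup ℂˣ, Γ.FG →
        Tendsto (fun N : ℕ => (({m : ℕ | m < N ∧ ¬ Good V Γ (κ n V) (orb W v w m)}.ncard : ℕ) : ℝ) /
          (N : ℝ)) atTop (𝓝 0) := by
  have hex : ∀ (n : ℕ) (V : Set (Fin n → ℂ)), ∃ κ : ℕ, (idealOf V).IsPrime →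
      ∀ Γ : Subgroup ℂˣ, Γ.FG → ∃ D : ℕ, ∀ (L : ℕ) (c : Fin L → ℤ),
        (∀ l, ∃ p : ℕ, p.Prime ∧ D < p ∧ (p : ℤ) ∣ c l ∧ ¬ ((p : ℤ) ^ 2 ∣ c l) ∧
          ∀ j, j ≠ l → ¬ (p : ℤ) ∣ c j) → Good V Γ κ c := by
    intro n V
    by_cases hV : (idealOf V).IsPrime
    · obtain ⟨κ, hκ⟩ := Pool.Agent.N712.ZT.translates V hV
      refine ⟨κ, fun _ Γ hΓ => ?_⟩
      obtain ⟨D, hD⟩ := hκ Γ hΓ
      exact ⟨D, fun L c hc => good_of_primes hD c hc⟩
    · exact ⟨0, fun h => absurd h hV⟩
  choose κ hκ using hex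
  refine ⟨κ, fun n L V hV Γ hΓ => ?_, fun L hL W v hv => ?_⟩
  · obtain ⟨D, hD⟩ := hκ n V hV Γ hΓ
    refine (Pool.Agent.N24.RW.t_CLO (Fin L)).1 _ _ (fun c hc => ?_) (Pool.Agent.N24.RW.t_ONE Pool.Agent.N24.RW.t_CRIT Pool.Agent.N24.RW.t_CLO (Fin L) D)
    exact fun h => hc (hD L c h)
  · have h1 : ∀ᵐ w ∂(words W.m), ∀ D : ℕ, Tendsto (fun N : ℕ => (({m : ℕ | m < N ∧ orb W v w m ∈
        {c : Fin L → ℤ | ¬ ∀ l : Fin L, ∃ p : ℕ, p.Prime ∧ D < p ∧ (p : ℤ) ∣ c l ∧
          ¬ ((p : ℤ) ^ 2 ∣ c l) ∧ ∀ j, j ≠ l → ¬ (p : ℤ) ∣ c j}}.ncard : ℕ) : ℝ) / (N : ℝ))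
        atTop (𝓝 0) := by
      rw [ae_all_iff]
      intro D
      exact Pool.Agent.N24.RW.t_MAIN Pool.Agent.N24.RW.t_ORB Pool.Agent.N24.RW.t_ERG (Fin L) (by simpa using hL) W v hv _
        (Pool.Agent.N24.RW.t_ONE Pool.Agent.N24.RW.t_CRIT Pool.Agent.N24.RW.t_CLO (Fin L) D)
    filter_upwards [h1] with w hw n V hV Γ hΓ
    obtain ⟨D, hD⟩ := hκ n V hV Γ hΓ
    refine squeeze_zero (fun N => by positivity) (fun N => ?_) (hw D)
    refine div_le_div_of_nonneg_right ?_ (Nat.cast_nonneg N)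
    have hsub : {m : ℕ | m < N ∧ ¬ Good V Γ (κ n V) (orb W v w m)} ⊆
        {m : ℕ | m < N ∧ orb W v w m ∈ {c : Fin L → ℤ | ¬ ∀ l : Fin L, ∃ p : ℕ, p.Prime ∧ D < p ∧
          (p : ℤ) ∣ c l ∧ ¬ ((p : ℤ) ^ 2 ∣ c l) ∧ ∀ j, j ≠ l → ¬ (p : ℤ) ∣ c j}} :=
      fun m hm => ⟨hm.1, fun h => hm.2 (hD L _ h)⟩
    have hle := Set.ncard_le_ncard hsub ((Set.finite_lt_nat N).subset fun m hm => hm.1)
    exact_mod_cast hle

end Pool.Agent.Results.MP_b7926e_nt.RandomOrbits
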